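import Pool.Agent.H438R2.Nest

/-!
Intersections of independent random compact sets: dimension.
-/

set_option autoImplicit false
set_option maxHeartbeats 400000
set_option linter.unusedSectionVars false

namespace V11324.KI

open MeasureTheory Filter Topology Set
open scoped ENNReal NNReal

/-- covers of small content -/
def Sm (s ε : ℝ) (K : Set ℂ) : Prop := ∃ (c : ℕ → ℂ) (r : ℕ → ℝ), (∀ n, 0 < r n) ∧
  K ⊆ ⋃ n, Metric.ball (c n) (r n) ∧ ∑' n, ENNReal.ofReal (r n ^ s) ≤ ENNReal.ofReal ε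

theorem Sm_of_zero {s ε : ℝ} (hs : 0 < s) (hε : 0 < ε) {K : Set ℂ} (h : μH[s] K = 0) :
    Sm s ε K := by
  classical
  have h2 : (0 : ℝ) < 2 ^ s := by positivity
  obtain ⟨t, u, h3, h4, h5, h6⟩ := Pool.Agent.H438R2.exists_radii hs h
    (show 0 < ε / 2 ^ s by positivity)
  refine ⟨fun n => if hn : (t n).Nonempty then hn.some else 0, fun n => 2 * u n,
    fun n => by have := h4 n; positivity, ?_, ?_⟩
  · refine h3.trans ?_
    intro x hx
    obtain ⟨n, hn⟩ := mem_iUnion.1 hx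
    refine mem_iUnion.2 ⟨n, ?_⟩
    have hne : (t n).Nonempty := ⟨x, hn⟩
    have e : (if hn : (t n).Nonempty then hn.some else 0) = hne.some := dif_pos hne
    show x ∈ Metric.ball (if hn : (t n).Nonempty then hn.some else 0) (2 * u n)
    rw [e, Metric.mem_ball]
    have := h5 n x hn _ hne.some_mem
    have := h4 n
    linarith
  · have e : ∀ n, ENNReal.ofReal ((2 * u n) ^ s) = ENNReal.ofReal (2 ^ s) * ENNReal.ofReal (u n ^ s) := by
      intro n
      rw [← ENNReal.ofReal_mul h2.le, Real.mul_rpow (by norm_num) (h4 n).le]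
    simp only [e]
    rw [ENNReal.tsum_mul_left]
    calc ENNReal.ofReal (2 ^ s) * ∑' n, ENNReal.ofReal (u n ^ s)
        ≤ ENNReal.ofReal (2 ^ s) * ENNReal.ofReal (ε / 2 ^ s) := by gcongr
      _ = ENNReal.ofReal ε := by
        rw [← ENNReal.ofReal_mul h2.le]
        congr 1
        field_simp

theorem zero_of_Sm {s : ℝ} (hs : 0 < s) {K : Set ℂ} (h : ∀ m : ℕ, Sm s (1 / ((m : ℝ) + 1)) K) :
    μH[s] K = 0 := by
  choose c r h1 h2 h3 using h
  have hr : ∀ m n, r m n ≤ (1 / ((m : ℝ) + 1)) ^ (1 / s) := by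
    intro m n
    have h4 : ENNReal.ofReal (r m n ^ s) ≤ ENNReal.ofReal (1 / ((m : ℝ) + 1)) :=
      (ENNReal.le_tsum n).trans (h3 m)
    have h5 : r m n ^ s ≤ 1 / ((m : ℝ) + 1) := (ENNReal.ofReal_le_ofReal_iff (by positivity)).1 h4
    calc r m n = (r m n ^ s) ^ (1 / s) := by
          rw [← Real.rpow_mul (h1 m n).le, mul_one_div_cancel hs.ne', Real.rpow_one]
      _ ≤ _ := Real.rpow_le_rpow (by have := h1 m n; positivity) h5 (by positivity)
  have hlim0 : Tendsto (fun m : ℕ => 1 / ((m : ℝ) + 1)) atTop (𝓝 0) :=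
    tendsto_one_div_add_atTop_nhds_zero_nat
  have hd : ∀ m n, Metric.ediam (Metric.ball (c m n) (r m n)) ≤ ENNReal.ofReal (2 * r m n) := by
    intro m n
    refine Metric.ediam_le fun x hx y hy => ?_
    rw [edist_dist]
    apply ENNReal.ofReal_le_ofReal
    rw [Metric.mem_ball] at hx hy
    have := dist_triangle_right x y (c m n)
    linarith
  have key := Measure.hausdorffMeasure_le_liminf_tsum (ι := fun _ : ℕ => ℕ) s K (l := atTop)
    (fun m : ℕ => ENNReal.ofReal (2 * (1 / ((m : ℝ) + 1)) ^ (1 / s)))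
    (by
      have h5 : Tendsto (fun m : ℕ => 2 * (1 / ((m : ℝ) + 1)) ^ (1 / s)) atTop
          (𝓝 (2 * (0 : ℝ) ^ (1 / s))) :=
        (hlim0.rpow_const (Or.inr (by positivity))).const_mul 2
      rw [Real.zero_rpow (by positivity), mul_zero] at h5
      have h6 := ENNReal.tendsto_ofReal h5
      rwa [ENNReal.ofReal_zero] at h6)
    (fun m n => Metric.ball (c m n) (r m n))
    (Eventually.of_forall fun m n => (hd m n).trans (ENNReal.ofReal_le_ofReal (by
      have := hr m n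
      linarith)))
    (Eventually.of_forall fun m => h2 m)
  have h7 : ∀ m : ℕ, ∑' n, Metric.ediam (Metric.ball (c m n) (r m n)) ^ s ≤
      ENNReal.ofReal (2 ^ s * (1 / ((m : ℝ) + 1))) := by
    intro m
    calc ∑' n, Metric.ediam (Metric.ball (c m n) (r m n)) ^ s
        ≤ ∑' n, ENNReal.ofReal (2 ^ s) * ENNReal.ofReal (r m n ^ s) := by
          apply ENNReal.tsum_le_tsum
          intro n
          rw [← ENNReal.ofReal_mul (by positivity), ← Real.mul_rpow (by norm_num) (h1 m n).le,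
            ← ENNReal.ofReal_rpow_of_pos (by have := h1 m n; positivity)]
          exact ENNReal.rpow_le_rpow (hd m n) hs.le
      _ = ENNReal.ofReal (2 ^ s) * ∑' n, ENNReal.ofReal (r m n ^ s) := ENNReal.tsum_mul_left
      _ ≤ ENNReal.ofReal (2 ^ s) * ENNReal.ofReal (1 / ((m : ℝ) + 1)) := by
          gcongr
          exact h3 m
      _ = _ := by rw [← ENNReal.ofReal_mul (by positivity)]
  have h8 : Tendsto (fun m : ℕ => ENNReal.ofReal (2 ^ s * (1 / ((m : ℝ) + 1)))) atTop (𝓝 0) := by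
    have h9 := ENNReal.tendsto_ofReal (hlim0.const_mul ((2 : ℝ) ^ s))
    rwa [mul_zero, ENNReal.ofReal_zero] at h9
  have h10 : liminf (fun m : ℕ => ∑' n, Metric.ediam (Metric.ball (c m n) (r m n)) ^ s) atTop ≤ 0 := by
    rw [← h8.liminf_eq]
    exact liminf_le_liminf (Eventually.of_forall h7)
  exact le_antisymm (key.trans h10) bot_le

theorem dim_iff {K : Set ℂ} {c : ℝ≥0∞} : dimH K ≤ c ↔
    ∀ q : ℚ, c < ENNReal.ofReal q → ∀ m : ℕ, Sm (q : ℝ) (1 / ((m : ℝ) + 1)) K := by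
  constructor
  · intro h q hq m
    have hq0 : (0 : ℝ) < q := by
      by_contra hcon
      rw [ENNReal.ofReal_of_nonpos (not_lt.1 hcon)] at hq
      exact absurd hq not_lt_zero
    apply Sm_of_zero hq0 (by positivity)
    have h1 : dimH K < ((Real.toNNReal (q : ℝ) : ℝ≥0) : ℝ≥0∞) := lt_of_le_of_lt h hq
    have h2 := hausdorffMeasure_of_dimH_lt h1
    rw [Real.coe_toNNReal _ hq0.le] at h2
    exact h2
  · intro h
    by_contra hcon
    rw [not_le] at hcon
    obtain ⟨q, hq0, hq1, hq2⟩ := ENNReal.lt_iff_exists_rat_btwn.1 hcon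
    have e1 : ((Real.toNNReal (q : ℝ) : ℝ≥0) : ℝ≥0∞) = ENNReal.ofReal q := rfl
    rw [e1] at hq1 hq2
    have hqp : (0 : ℝ) < q := by
      by_contra hc
      rw [ENNReal.ofReal_of_nonpos (not_lt.1 hc)] at hq1
      exact absurd hq1 not_lt_zero
    have h0 := zero_of_Sm hqp (h q hq1)
    have h1 : dimH K ≤ ((Real.toNNReal (q : ℝ) : ℝ≥0) : ℝ≥0∞) := by
      apply dimH_le_of_hausdorffMeasure_ne_top
      rw [Real.coe_toNNReal _ hqp.le, h0]
      exact ENNReal.zero_ne_top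
    exact absurd h1 (not_le.2 hq2)

/-- upper semicontinuity -/
def Usc {Z : Type*} [TopologicalSpace Z] (K : Z → Set ℂ) : Prop :=
  ∀ U : Set ℂ, IsOpen U → IsOpen {z | K z ⊆ U}

section

variable {Z Y : Type*} [TopologicalSpace Z] [TopologicalSpace Y]

theorem Usc.const (S : Set ℂ) : Usc (fun _ : Z => S) := fun _ _ => isOpen_const

theorem Usc.comp {K : Z → Set ℂ} (hK : Usc K) {g : Y → Z} (hg : Continuous g) :
    Usc (fun y => K (g y)) := fun U hU => (hK U hU).preimage hg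

theorem Usc.inter {K L : Z → Set ℂ} (hK : Usc K) (hL : Usc L) (hKc : ∀ z, IsCompact (K z))
    (hLc : ∀ z, IsCompact (L z)) : Usc (fun z => K z ∩ L z) := by
  intro U hU
  rw [isOpen_iff_forall_mem_open]
  intro z hz
  have hz' : K z ∩ L z ⊆ U := hz
  have h1 : IsCompact (K z \ U) := (hKc z).diff hU
  have h2 : IsCompact (L z \ U) := (hLc z).diff hU
  have h3 : Disjoint (K z \ U) (L z \ U) := by
    rw [Set.disjoint_left]
    rintro x ⟨hx1, hx2⟩ ⟨hx3, -⟩
    exact hx2 (hz' ⟨hx1, hx3⟩)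
  obtain ⟨V, W, hV, hW, hKV, hLW, hVW⟩ := SeparatedNhds.of_isCompact_isCompact h1 h2 h3
  refine ⟨{z | K z ⊆ U ∪ V} ∩ {z | L z ⊆ U ∪ W}, ?_, (hK _ (hU.union hV)).inter (hL _ (hU.union hW)),
    ⟨?_, ?_⟩⟩
  · rintro y ⟨hy1, hy2⟩ x ⟨hx1, hx2⟩
    rcases hy1 hx1 with h | h
    · exact h
    · rcases hy2 hx2 with h' | h'
      · exact h'
      · exact absurd h' (Set.disjoint_left.1 hVW h)
  · intro x hx
    by_cases hxU : x ∈ U
    · exact Or.inl hxU
    · exact Or.inr (hKV ⟨hx, hxU⟩)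
  · intro x hx
    by_cases hxU : x ∈ U
    · exact Or.inl hxU
    · exact Or.inr (hLW ⟨hx, hxU⟩)

theorem Usc.meas {K : Z → Set ℂ} (hK : Usc K) [MeasurableSpace Z] [OpensMeasurableSpace Z]
    (c : ℝ≥0∞) : MeasurableSet {z | dimH (K z) ≤ c} := by
  have e : {z | dimH (K z) ≤ c} = ⋂ q : ℚ, ⋂ _ : c < ENNReal.ofReal q, ⋂ m : ℕ,
      {z | Sm (q : ℝ) (1 / ((m : ℝ) + 1)) (K z)} := by
    ext z
    simp only [mem_iInter]
    exact dim_iff
  rw [e]
  refine MeasurableSet.iInter fun q => MeasurableSet.iInter fun _ => MeasurableSet.iInter fun m => ?_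
  apply IsOpen.measurableSet
  have e2 : {z | Sm (q : ℝ) (1 / ((m : ℝ) + 1)) (K z)} = ⋃ (c : ℕ → ℂ) (r : ℕ → ℝ),
      ⋃ _ : (∀ n, 0 < r n) ∧ ∑' n, ENNReal.ofReal (r n ^ (q : ℝ)) ≤
        ENNReal.ofReal (1 / ((m : ℝ) + 1)), {z | K z ⊆ ⋃ n, Metric.ball (c n) (r n)} := by
    ext z
    simp only [mem_iUnion]
    constructor
    · rintro ⟨c, r, h1, h2, h3⟩
      exact ⟨c, r, ⟨h1, h3⟩, h2⟩
    · rintro ⟨c, r, ⟨h1, h3⟩, h2⟩
      exact ⟨c, r, h1, h2, h3⟩
  rw [e2]
  exact isOpen_iUnion fun c => isOpen_iUnion fun r => isOpen_iUnion fun _ =>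
    hK _ (isOpen_iUnion fun n => Metric.isOpen_ball)

theorem Usc.empty {K : Z → Set ℂ} (hK : Usc K) : IsOpen {z | K z = ∅} := by
  have e : {z | K z = ∅} = {z | K z ⊆ ∅} := by
    ext z
    exact ⟨fun h => (show K z = ∅ from h).le, fun h => Set.subset_empty_iff.1 h⟩
  rw [e]
  exact hK ∅ isOpen_empty

end

section main

variable {X : Type} [TopologicalSpace X] [SecondCountableTopology X] [MeasurableSpace X]
  [OpensMeasurableSpace X] (tr : X → Set ℂ)

/-- The hypotheses on one random set. -/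
structure Good (D : Set ℂ) (μ : Measure X) : Prop where
  up : ∀ T : Set ℂ, T ⊆ D → ∀ᵐ p ∂μ, dimH (T ∩ tr p) ≤ dimH T - 1 / 4 ∧
    (dimH T < 1 / 4 → T ∩ tr p = ∅)
  lo : ∀ T : Set ℂ, T ⊆ D → IsCompact T → ∀ t : ℝ, 0 < t → ENNReal.ofReal (t + 1 / 4) < dimH T →
    ¬ ∀ᵐ p ∂μ, dimH (T ∩ tr p) < ENNReal.ofReal t

variable {tr}

theorem Good.mono {D D' : Set ℂ} {μ : Measure X} (h : Good tr D μ) (hD : D' ⊆ D) : Good tr D' μ :=
  ⟨fun T hT => h.up T (hT.trans hD), fun T hT => h.lo T (hT.trans hD)⟩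

theorem iInter_succ {k : ℕ} (z : Fin (k + 1) → X) : (⋂ i, tr (z i)) =
    tr (z 0) ∩ ⋂ i : Fin k, tr (z ((0 : Fin (k + 1)).succAbove i)) := by
  ext x
  simp only [mem_iInter, mem_inter_iff]
  constructor
  · exact fun h => ⟨h 0, fun i => h _⟩
  · rintro ⟨h0, h1⟩ i
    refine Fin.cases h0 (fun j => ?_) i
    exact h1 j

theorem usc_fin (htr : ∀ p, IsCompact (tr p)) (husc : Usc tr) {S : Set ℂ} (hS : IsCompact S) :
    ∀ k : ℕ, Usc (fun z : Fin k → X => S ∩ ⋂ i, tr (z i)) ∧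
      ∀ z : Fin k → X, IsCompact (S ∩ ⋂ i, tr (z i))
  | 0 => by
    have e : ∀ z : Fin 0 → X, S ∩ ⋂ i, tr (z i) = S := by
      intro z
      rw [iInter_of_empty, inter_univ]
    simp only [e]
    exact ⟨Usc.const S, fun _ => hS⟩
  | k + 1 => by
    obtain ⟨h1, h2⟩ := usc_fin htr husc hS k
    have e : ∀ z : Fin (k + 1) → X, S ∩ ⋂ i, tr (z i) = tr (z 0) ∩
        (S ∩ ⋂ i : Fin k, tr (z ((0 : Fin (k + 1)).succAbove i))) := by
      intro z
      rw [iInter_succ]
      ext x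
      simp only [mem_inter_iff]
      tauto
    simp only [e]
    refine ⟨(husc.comp (continuous_apply 0)).inter (h1.comp (g := fun z : Fin (k + 1) → X =>
      fun i : Fin k => z ((0 : Fin (k + 1)).succAbove i)) (by fun_prop)) (fun z => htr _)
      (fun z => h2 _), fun z => (htr _).inter (h2 _)⟩

theorem quarter_succ (k : ℕ) : (((k + 1 : ℕ) : ℝ≥0∞)) / 4 = (k : ℝ≥0∞) / 4 + 1 / 4 := by
  push_cast
  rw [ENNReal.add_div]

theorem upk (htr : ∀ p, IsCompact (tr p)) (husc : Usc tr) (k : ℕ) :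
    ∀ (μ : Fin k → Measure X) [∀ i, IsProbabilityMeasure (μ i)] (S : Set ℂ), IsCompact S →
      (∀ i, Good tr S (μ i)) → ∀ᵐ z ∂(Measure.pi μ),
        dimH (S ∩ ⋂ i, tr (z i)) ≤ dimH S - (k : ℝ≥0∞) / 4 ∧
        (dimH S < (k : ℝ≥0∞) / 4 → S ∩ ⋂ i, tr (z i) = ∅) := by
  induction k with
  | zero =>
    intro μ _ S hS _
    refine ae_of_all _ fun z => ?_
    rw [iInter_of_empty, inter_univ]
    simp
  | succ k ih =>
    intro μ _ S hS hG
    have h1 : ∀ᵐ p ∂(μ 0), ∀ᵐ z ∂(Measure.pi fun j => μ ((0 : Fin (k + 1)).succAbove j)),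
        dimH (tr p ∩ (S ∩ ⋂ i, tr (z i))) ≤ dimH S - ((k + 1 : ℕ) : ℝ≥0∞) / 4 ∧
        (dimH S < ((k + 1 : ℕ) : ℝ≥0∞) / 4 → tr p ∩ (S ∩ ⋂ i, tr (z i)) = ∅) := by
      filter_upwards [(hG 0).up S le_rfl] with p hp
      filter_upwards [ih (fun j => μ ((0 : Fin (k + 1)).succAbove j)) (S ∩ tr p)
        (hS.inter (htr p)) (fun i => (hG _).mono inter_subset_left)] with z hz
      have e : tr p ∩ (S ∩ ⋂ i, tr (z i)) = S ∩ tr p ∩ ⋂ i, tr (z i) := by
        ext x
        simp only [mem_inter_iff]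
        tauto
      rw [e]
      refine ⟨?_, ?_⟩
      · refine hz.1.trans ?_
        rw [quarter_succ, add_comm, ← tsub_tsub]
        exact tsub_le_tsub_right hp.1 _
      · intro h
        rcases Nat.eq_zero_or_pos k with hk | hk
        · subst hk
          have h2 : dimH S < 1 / 4 := by simpa using h
          rw [hp.2 h2, empty_inter]
        · apply hz.2
          rw [quarter_succ] at h
          have h3 : dimH S - 1 / 4 < (k : ℝ≥0∞) / 4 := by
            rcases le_total (dimH S) (1 / 4) with h4 | h4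
            · rw [tsub_eq_zero_of_le h4]
              apply ENNReal.div_pos
              · exact_mod_cast hk.ne'
              · norm_num
            · exact (ENNReal.sub_lt_iff_lt_right (by finiteness) h4).2 h
          exact lt_of_le_of_lt hp.1 h3
    -- measurability
    have husc2 : Usc (fun z : X × (Fin k → X) => tr z.1 ∩ (S ∩ ⋂ i, tr (z.2 i))) :=
      (husc.comp continuous_fst).inter ((usc_fin htr husc hS k).1.comp continuous_snd)
        (fun z => htr _) (fun z => (usc_fin htr husc hS k).2 _)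
    have hm : MeasurableSet {z : X × (Fin k → X) |
        dimH (tr z.1 ∩ (S ∩ ⋂ i, tr (z.2 i))) ≤ dimH S - ((k + 1 : ℕ) : ℝ≥0∞) / 4 ∧
        (dimH S < ((k + 1 : ℕ) : ℝ≥0∞) / 4 → tr z.1 ∩ (S ∩ ⋂ i, tr (z.2 i)) = ∅)} := by
      apply (husc2.meas _).inter
      by_cases h : dimH S < ((k + 1 : ℕ) : ℝ≥0∞) / 4
      · have e : {z : X × (Fin k → X) | (dimH S < ((k + 1 : ℕ) : ℝ≥0∞) / 4 →
            tr z.1 ∩ (S ∩ ⋂ i, tr (z.2 i)) = ∅)} =
            {z : X × (Fin k → X) | tr z.1 ∩ (S ∩ ⋂ i, tr (z.2 i)) = ∅} := by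
          ext z
          exact ⟨fun h2 => h2 h, fun h2 _ => h2⟩
        show MeasurableSet {z : X × (Fin k → X) | (dimH S < ((k + 1 : ℕ) : ℝ≥0∞) / 4 →
            tr z.1 ∩ (S ∩ ⋂ i, tr (z.2 i)) = ∅)}
        rw [e]
        exact husc2.empty.measurableSet
      · have e : {z : X × (Fin k → X) | (dimH S < ((k + 1 : ℕ) : ℝ≥0∞) / 4 →
            tr z.1 ∩ (S ∩ ⋂ i, tr (z.2 i)) = ∅)} = Set.univ := by
          ext z
          exact ⟨fun _ => mem_univ _, fun _ h2 => absurd h2 h⟩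
        show MeasurableSet {z : X × (Fin k → X) | (dimH S < ((k + 1 : ℕ) : ℝ≥0∞) / 4 →
            tr z.1 ∩ (S ∩ ⋂ i, tr (z.2 i)) = ∅)}
        rw [e]
        exact MeasurableSet.univ
    have h6 := (Measure.ae_prod_iff_ae_ae hm).2 h1
    have h7 := measurePreserving_piFinSuccAbove μ 0
    filter_upwards [h7.quasiMeasurePreserving.ae h6] with z hz
    have e : S ∩ ⋂ i, tr (z i) = tr (z 0) ∩
        (S ∩ ⋂ i : Fin k, tr (z ((0 : Fin (k + 1)).succAbove i))) := by
      rw [iInter_succ]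
      ext x
      simp only [mem_inter_iff]
      tauto
    rw [e]
    exact hz

theorem lok (htr : ∀ p, IsCompact (tr p)) (k : ℕ) :
    ∀ (μ : Fin k → Measure X) [∀ i, IsProbabilityMeasure (μ i)] (S : Set ℂ), IsCompact S →
      (∀ i, Good tr S (μ i)) → ∀ t : ℝ, 0 < t → ENNReal.ofReal (t + k / 4) < dimH S →
      ¬ ∀ᵐ z ∂(Measure.pi μ), dimH (S ∩ ⋂ i, tr (z i)) < ENNReal.ofReal t := by
  induction k with
  | zero =>
    intro μ _ S hS _ t ht h hcon
    obtain ⟨z, hz⟩ := hcon.exists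
    rw [iInter_of_empty, inter_univ] at hz
    simp only [Nat.cast_zero, zero_div, add_zero] at h
    exact lt_irrefl _ (h.trans hz)
  | succ k ih =>
    intro μ _ S hS hG t ht h hcon
    have h7 := (measurePreserving_piFinSuccAbove μ 0).symm
    have h8 := h7.quasiMeasurePreserving.ae hcon
    have h9 := Measure.ae_ae_of_ae_prod h8
    -- a bigger `t`
    obtain ⟨s, hs0, hs1, hs2⟩ := ENNReal.lt_iff_exists_real_btwn.mp h
    have hts : t + ((k + 1 : ℕ) : ℝ) / 4 < s :=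
      (ENNReal.ofReal_lt_ofReal_iff_of_nonneg (by positivity)).mp hs1
    have e1 : s = (s - 1 / 4) + 1 / 4 := by ring
    have hk : ((k + 1 : ℕ) : ℝ) / 4 = (k : ℝ) / 4 + 1 / 4 := by push_cast; ring
    rw [hk] at hts
    have hk0 : (0 : ℝ) ≤ (k : ℝ) / 4 := by positivity
    rw [e1] at hs2
    refine (hG 0).lo S le_rfl hS (s - 1 / 4) (by linarith) hs2 ?_
    filter_upwards [h9] with p hp
    have h10 : ¬ ENNReal.ofReal (t + k / 4) < dimH (S ∩ tr p) := by
      intro h11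
      refine ih (fun j => μ ((0 : Fin (k + 1)).succAbove j)) (S ∩ tr p) (hS.inter (htr p))
        (fun i => (hG _).mono inter_subset_left) t ht h11 ?_
      filter_upwards [hp] with z hz
      have e : S ∩ ⋂ i, tr (((MeasurableEquiv.piFinSuccAbove (fun _ => X) 0).symm (p, z)) i) =
          S ∩ tr p ∩ ⋂ i, tr (z i) := by
        rw [iInter_succ]
        ext x
        have e2 : ((MeasurableEquiv.piFinSuccAbove (fun _ : Fin (k + 1) => X) 0).symm (p, z)) 0 = p := by
          simp [MeasurableEquiv.piFinSuccAbove]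
        have e3 : ∀ i : Fin k, ((MeasurableEquiv.piFinSuccAbove (fun _ : Fin (k + 1) => X) 0).symm
            (p, z)) ((0 : Fin (k + 1)).succAbove i) = z i := by
          intro i
          simp [MeasurableEquiv.piFinSuccAbove]
        simp only [mem_inter_iff, mem_iInter, e2, e3]
        tauto
      rw [← e]
      exact hz
    rw [not_lt] at h10
    refine lt_of_le_of_lt h10 ?_
    exact (ENNReal.ofReal_lt_ofReal_iff (by linarith)).2 (by linarith)

end main

end V11324.KI
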