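import Pool.Agent.V11324.KI.Abs

/-!
Intersections of independent random sigma-compact sets: almost sure dimension.
-/

set_option autoImplicit false
set_option maxHeartbeats 400000
set_option linter.unusedSectionVars false

namespace V11324.KI

open MeasureTheory Filter Topology Set
open scoped ENNReal NNReal

theorem sc_inter {A : Set ℂ} (hA : IsSigmaCompact A) {B : ℕ → Set ℂ} (hB : ∀ n, IsCompact (B n)) :
    IsSigmaCompact (A ∩ ⋃ n, B n) := by
  obtain ⟨K, hK, rfl⟩ := hA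
  have e : (⋃ n, K n) ∩ ⋃ n, B n = ⋃ p : ℕ × ℕ, (K p.1 ∩ B p.2) := by
    ext x
    simp only [mem_inter_iff, mem_iUnion, Prod.exists]
    exact ⟨fun ⟨⟨i, hi⟩, j, hj⟩ => ⟨i, j, hi, hj⟩, fun ⟨i, j, hi, hj⟩ => ⟨⟨i, hi⟩, j, hj⟩⟩
  rw [e]
  exact isSigmaCompact_iUnion_of_isCompact _ fun p => (hK p.1).inter (hB p.2)

section

variable {Y : Type} [TopologicalSpace Y] [SecondCountableTopology Y] [MeasurableSpace Y]
  [OpensMeasurableSpace Y] (B : ℕ → Y → Set ℂ)

/-- the random set -/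
def Big (y : Y) : Set ℂ := ⋃ n, B n y

/-- The hypothesis on one random set. -/
def GoodS (β : ℝ≥0∞) (D : Set ℂ) (μ : Measure Y) : Prop :=
  ∀ A : Set ℂ, A ⊆ D → IsSigmaCompact A → ∀ᵐ y ∂μ, dimH (A ∩ Big B y) = dimH A - β ∧
    (dimH A < β → A ∩ Big B y = ∅)

variable {B}

theorem GoodS.mono {β : ℝ≥0∞} {D D' : Set ℂ} {μ : Measure Y} (h : GoodS B β D μ) (hD : D' ⊆ D) :
    GoodS B β D' μ := fun A hA => h A (hA.trans hD)

theorem union_eq (hm : ∀ y, Monotone fun n => B n y) {K : ℕ → Set ℂ} {k : ℕ}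
    (z : Y × (Fin k → Y)) : Big B z.1 ∩ ((⋃ m, K m) ∩ ⋂ i, Big B (z.2 i)) =
      ⋃ p : ℕ × ℕ, (B p.2 z.1 ∩ (K p.1 ∩ ⋂ i, B p.2 (z.2 i))) := by
  classical
  ext x
  simp only [Big, mem_inter_iff, mem_iUnion, mem_iInter, Prod.exists]
  constructor
  · rintro ⟨⟨n, hn⟩, ⟨m, hm'⟩, h⟩
    choose f hf using h
    refine ⟨m, max n (Finset.univ.sup f), hm _ (le_max_left _ _) hn, hm', fun i => ?_⟩
    exact hm _ ((Finset.le_sup (f := f) (Finset.mem_univ i)).trans (le_max_right _ _)) (hf i)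
  · rintro ⟨m, n, h1, h2, h3⟩
    exact ⟨⟨n, h1⟩, ⟨m, h2⟩, fun i => ⟨n, h3 i⟩⟩

theorem dim_succ {β : ℝ≥0∞} (k : ℕ) : ((k + 1 : ℕ) : ℝ≥0∞) * β = β + (k : ℝ≥0∞) * β := by
  push_cast
  rw [add_mul, one_mul, add_comm]

theorem many (hc : ∀ n y, IsCompact (B n y)) (hu : ∀ n, Usc (B n))
    (hm : ∀ y, Monotone fun n => B n y) {β : ℝ≥0∞} (hβ : β ≠ ⊤) (k : ℕ) :
    ∀ (μ : Fin k → Measure Y) [∀ i, IsProbabilityMeasure (μ i)] (A : Set ℂ), IsSigmaCompact A →
      (∀ i, GoodS B β A (μ i)) → ∀ᵐ z ∂(Measure.pi μ),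
        dimH (A ∩ ⋂ i, Big B (z i)) = dimH A - (k : ℝ≥0∞) * β ∧
        (dimH A < (k : ℝ≥0∞) * β → A ∩ ⋂ i, Big B (z i) = ∅) := by
  induction k with
  | zero =>
    intro μ _ A _ _
    refine ae_of_all _ fun z => ?_
    rw [iInter_of_empty, inter_univ]
    simp
  | succ k ih =>
    intro μ _ A hA hG
    have h1 : ∀ᵐ p ∂(μ 0), ∀ᵐ z ∂(Measure.pi fun j => μ ((0 : Fin (k + 1)).succAbove j)),
        dimH (Big B p ∩ (A ∩ ⋂ i, Big B (z i))) = dimH A - ((k + 1 : ℕ) : ℝ≥0∞) * β ∧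
        (dimH A < ((k + 1 : ℕ) : ℝ≥0∞) * β → Big B p ∩ (A ∩ ⋂ i, Big B (z i)) = ∅) := by
      filter_upwards [hG 0 A le_rfl hA] with p hp
      filter_upwards [ih (fun j => μ ((0 : Fin (k + 1)).succAbove j)) (A ∩ Big B p)
        (sc_inter hA fun n => hc n p) (fun i => (hG _).mono inter_subset_left)] with z hz
      have e : Big B p ∩ (A ∩ ⋂ i, Big B (z i)) = A ∩ Big B p ∩ ⋂ i, Big B (z i) := by
        ext x
        simp only [mem_inter_iff]
        tauto
      rw [e]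
      refine ⟨?_, ?_⟩
      · rw [hz.1, hp.1, tsub_tsub, dim_succ]
      · intro h
        rcases Nat.eq_zero_or_pos k with hk | hk
        · subst hk
          have h2 : dimH A < β := by simpa using h
          rw [hp.2 h2, empty_inter]
        · rcases eq_or_ne β 0 with h0 | h0
          · rw [h0, mul_zero] at h
            exact absurd h not_lt_zero
          · apply hz.2
            rw [dim_succ] at h
            rw [hp.1]
            rcases le_total (dimH A) β with h4 | h4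
            · rw [tsub_eq_zero_of_le h4]
              apply ENNReal.mul_pos _ h0
              exact_mod_cast hk.ne'
            · rw [add_comm] at h
              exact (ENNReal.sub_lt_iff_lt_right hβ h4).2 h
    -- measurability
    obtain ⟨K, hK, hKA⟩ := hA
    have husc : ∀ p : ℕ × ℕ, Usc (fun z : Y × (Fin k → Y) => B p.2 z.1 ∩ (K p.1 ∩ ⋂ i, B p.2 (z.2 i))) :=
      fun p => ((hu p.2).comp continuous_fst).inter
        ((usc_fin (hc p.2) (hu p.2) (hK p.1) k).1.comp continuous_snd)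
        (fun z => hc _ _) (fun z => (usc_fin (hc p.2) (hu p.2) (hK p.1) k).2 _)
    have hfm : Measurable (fun z : Y × (Fin k → Y) => dimH (Big B z.1 ∩ (A ∩ ⋂ i, Big B (z.2 i)))) := by
      have e : (fun z : Y × (Fin k → Y) => dimH (Big B z.1 ∩ (A ∩ ⋂ i, Big B (z.2 i)))) =
          fun z => ⨆ p : ℕ × ℕ, dimH (B p.2 z.1 ∩ (K p.1 ∩ ⋂ i, B p.2 (z.2 i))) := by
        funext z
        rw [← hKA, union_eq hm z, dimH_iUnion]
      rw [e]
      exact Measurable.iSup fun p => measurable_of_Iic fun c => (husc p).meas c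
    have hem : MeasurableSet {z : Y × (Fin k → Y) | Big B z.1 ∩ (A ∩ ⋂ i, Big B (z.2 i)) = ∅} := by
      have e : {z : Y × (Fin k → Y) | Big B z.1 ∩ (A ∩ ⋂ i, Big B (z.2 i)) = ∅} =
          ⋂ p : ℕ × ℕ, {z | B p.2 z.1 ∩ (K p.1 ∩ ⋂ i, B p.2 (z.2 i)) = ∅} := by
        ext z
        rw [mem_iInter]
        show Big B z.1 ∩ (A ∩ ⋂ i, Big B (z.2 i)) = ∅ ↔ _
        rw [← hKA, union_eq hm z, iUnion_eq_empty]
        rfl
      rw [e]
      exact MeasurableSet.iInter fun p => (husc p).empty.measurableSet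
    have hmeas : MeasurableSet {z : Y × (Fin k → Y) |
        dimH (Big B z.1 ∩ (A ∩ ⋂ i, Big B (z.2 i))) = dimH A - ((k + 1 : ℕ) : ℝ≥0∞) * β ∧
        (dimH A < ((k + 1 : ℕ) : ℝ≥0∞) * β → Big B z.1 ∩ (A ∩ ⋂ i, Big B (z.2 i)) = ∅)} := by
      apply (hfm (measurableSet_singleton _)).inter
      by_cases h : dimH A < ((k + 1 : ℕ) : ℝ≥0∞) * β
      · have e : {z : Y × (Fin k → Y) | (dimH A < ((k + 1 : ℕ) : ℝ≥0∞) * β →
            Big B z.1 ∩ (A ∩ ⋂ i, Big B (z.2 i)) = ∅)} =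
            {z : Y × (Fin k → Y) | Big B z.1 ∩ (A ∩ ⋂ i, Big B (z.2 i)) = ∅} := by
          ext z
          exact ⟨fun h2 => h2 h, fun h2 _ => h2⟩
        show MeasurableSet {z : Y × (Fin k → Y) | (dimH A < ((k + 1 : ℕ) : ℝ≥0∞) * β →
            Big B z.1 ∩ (A ∩ ⋂ i, Big B (z.2 i)) = ∅)}
        rw [e]
        exact hem
      · have e : {z : Y × (Fin k → Y) | (dimH A < ((k + 1 : ℕ) : ℝ≥0∞) * β →
            Big B z.1 ∩ (A ∩ ⋂ i, Big B (z.2 i)) = ∅)} = Set.univ := by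
          ext z
          exact ⟨fun _ => mem_univ _, fun _ h2 => absurd h2 h⟩
        show MeasurableSet {z : Y × (Fin k → Y) | (dimH A < ((k + 1 : ℕ) : ℝ≥0∞) * β →
            Big B z.1 ∩ (A ∩ ⋂ i, Big B (z.2 i)) = ∅)}
        rw [e]
        exact MeasurableSet.univ
    have h6 := (Measure.ae_prod_iff_ae_ae hmeas).2 h1
    have h7 := measurePreserving_piFinSuccAbove μ 0
    filter_upwards [h7.quasiMeasurePreserving.ae h6] with z hz
    have e : A ∩ ⋂ i, Big B (z i) = Big B (z 0) ∩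
        (A ∩ ⋂ i : Fin k, Big B (z ((0 : Fin (k + 1)).succAbove i))) := by
      rw [iInter_succ (tr := Big B)]
      ext x
      simp only [mem_inter_iff]
      tauto
    rw [e]
    exact hz

end

end V11324.KI
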