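import Pool.Agent.V11324.KI.AbsS
import Pool.Agent.TH966.CF.Fin
import Pool.Agent.H160R2.SA.Arm

/-!
Points which lie in macroscopic clusters of `k` independent critical percolation configurations.
-/

set_option autoImplicit false
set_option maxHeartbeats 400000

namespace V11324.KI

open H974 H934E Pool.Agent.H160R2.CV MeasureTheory TopologicalSpace Filter Topology Metric Set
open Pool.Agent.H389R2.Dim Pool.Agent.H389R2.CD Pool.Agent.H389R2.CL Pool.Agent.TH966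
open scoped ENNReal NNReal

/-- union of the members of diameter at least `1 / (n + 1)` -/
def Bn (n : ℕ) (𝒞 : NonemptyCompacts (NonemptyCompacts ℂ)) : Set ℂ := CF.U (1 / ((n : ℝ) + 1)) 𝒞

/-- union of the members which are not single points -/
def big (𝒞 : NonemptyCompacts (NonemptyCompacts ℂ)) : Set ℂ :=
  {x | ∃ K ∈ 𝒞, (K : Set ℂ).Nontrivial ∧ x ∈ K}

theorem Bn_mono (𝒞 : NonemptyCompacts (NonemptyCompacts ℂ)) : Monotone fun n => Bn n 𝒞 := by
  rintro n m hnm x ⟨K, h1, h2, h3⟩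
  refine ⟨K, h1, le_trans ?_ h2, h3⟩
  apply one_div_le_one_div_of_le (by positivity)
  have : (n : ℝ) ≤ m := by exact_mod_cast hnm
  linarith

theorem Big_eq (𝒞 : NonemptyCompacts (NonemptyCompacts ℂ)) : Big Bn 𝒞 = big 𝒞 := by
  ext x
  constructor
  · intro hx
    obtain ⟨n, K, h1, h2, h3⟩ := mem_iUnion.1 hx
    refine ⟨K, h1, ?_, h3⟩
    by_contra hcon
    rw [Set.not_nontrivial_iff] at hcon
    rw [diam_subsingleton hcon] at h2
    have : (0 : ℝ) < 1 / ((n : ℝ) + 1) := by positivity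
    linarith
  · rintro ⟨K, h1, h2, h3⟩
    have hd : 0 < diam (K : Set ℂ) := by
      obtain ⟨x, hx, y, hy, hxy⟩ := h2
      exact lt_of_lt_of_le (dist_pos.mpr hxy) (dist_le_diam_of_mem K.isCompact.isBounded hx hy)
    obtain ⟨n, hn⟩ := exists_nat_one_div_lt hd
    exact mem_iUnion.2 ⟨n, K, h1, hn.le, h3⟩

theorem goodS (R : Rect) {δ : ℕ → ℝ} (hδ : ∀ i, 0 < δ i) (hlim : Tendsto δ atTop (𝓝 0))
    {μ : ProbabilityMeasure (NonemptyCompacts (NonemptyCompacts ℂ))}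
    (hμ : Tendsto (fun i => collLaw R (δ i)) atTop (𝓝 μ)) :
    GoodS Bn (ENNReal.ofReal (5 / 48)) R.D
      (μ : Measure (NonemptyCompacts (NonemptyCompacts ℂ))) := by
  have hAr : ArS := Pool.Agent.H160R2.SA.arSharp
  intro A hA hAs
  obtain ⟨Kn, hKc, hKA⟩ := hAs
  have h1 : ∀ᵐ 𝒞 : NonemptyCompacts (NonemptyCompacts ℂ)
      ∂(μ : Measure (NonemptyCompacts (NonemptyCompacts ℂ))), ∀ n : ℕ,
      dimH (CF.U (1 / ((n : ℝ) + 1)) 𝒞 ∩ A) ≤ dimH A - ENNReal.ofReal (5 / 48) ∧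
        (μH[(5 / 48 : ℝ)] A = 0 → CF.U (1 / ((n : ℝ) + 1)) 𝒞 ∩ A = ∅) :=
    ae_all_iff.2 fun n => CF.U_upper hAr R hδ hlim hμ hA (by positivity)
  have h2 : ∀ᵐ 𝒞 : NonemptyCompacts (NonemptyCompacts ℂ)
      ∂(μ : Measure (NonemptyCompacts (NonemptyCompacts ℂ))), ∀ n : ℕ,
      dimH (Kn n) - ENNReal.ofReal (5 / 48) ≤
        ⨆ K ∈ {K : NonemptyCompacts ℂ | K ∈ 𝒞 ∧ (K : Set ℂ).Nontrivial},
          dimH ((K : Set ℂ) ∩ Kn n) :=
    ae_all_iff.2 fun n => CF.lower_ae hAr R hδ hlim hμ (hKc n)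
      ((hKA ▸ Set.subset_iUnion Kn n).trans hA)
  filter_upwards [h1, h2] with 𝒞 h3 h4
  have hU : A ∩ Big Bn 𝒞 = ⋃ n : ℕ, (CF.U (1 / ((n : ℝ) + 1)) 𝒞 ∩ A) := by
    unfold Big Bn
    rw [Set.inter_iUnion]
    exact Set.iUnion_congr fun n => Set.inter_comm _ _
  refine ⟨le_antisymm ?_ ?_, ?_⟩
  · rw [hU, dimH_iUnion]
    exact iSup_le fun n => (h3 n).1
  · have e : dimH A = ⨆ n, dimH (Kn n) := by rw [← hKA, dimH_iUnion]
    rw [e, ENNReal.iSup_sub]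
    refine iSup_le fun n => (h4 n).trans ?_
    refine iSup₂_le fun K hK => dimH_mono ?_
    rintro x ⟨hx1, hx2⟩
    refine ⟨hKA ▸ Set.mem_iUnion.2 ⟨n, hx2⟩, ?_⟩
    rw [Big_eq]
    exact ⟨K, hK.1, hK.2, hx1⟩
  · intro h
    have h0 : μH[(5 / 48 : ℝ)] A = 0 := by
      have h5 : dimH A < ((Real.toNNReal (5 / 48 : ℝ) : ℝ≥0) : ℝ≥0∞) := h
      have h6 := hausdorffMeasure_of_dimH_lt h5
      rw [Real.coe_toNNReal _ (by norm_num)] at h6
      exact h6
    rw [hU, Set.iUnion_eq_empty]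
    exact fun n => (h3 n).2 h0

theorem e548 : ENNReal.ofReal (5 / 48) = 5 / 48 := by
  rw [ENNReal.ofReal_div_of_pos (by norm_num)]
  norm_num

theorem clusters (k : ℕ) (R : Fin k → Rect)
    (μ : Fin k → ProbabilityMeasure (NonemptyCompacts (NonemptyCompacts ℂ)))
    (hμ : ∀ i, ∃ δ : ℕ → ℝ, (∀ j, 0 < δ j) ∧ Tendsto δ atTop (𝓝 0) ∧
      Tendsto (fun j => collLaw (R i) (δ j)) atTop (𝓝 (μ i)))
    (S : Set ℂ) (hSD : ∀ i, S ⊆ (R i).D) (hS : IsSigmaCompact S) :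
    ∀ᵐ 𝒞 ∂(Measure.pi fun i => (μ i : Measure (NonemptyCompacts (NonemptyCompacts ℂ)))),
      dimH {x | x ∈ S ∧ ∀ i, x ∈ big (𝒞 i)} = dimH S - (k : ℝ≥0∞) * (5 / 48) ∧
      (dimH S < (k : ℝ≥0∞) * (5 / 48) → {x | x ∈ S ∧ ∀ i, x ∈ big (𝒞 i)} = ∅) := by
  have hG : ∀ i, GoodS Bn (ENNReal.ofReal (5 / 48)) S
      (μ i : Measure (NonemptyCompacts (NonemptyCompacts ℂ))) := by
    intro i
    obtain ⟨δ, h1, h2, h3⟩ := hμ i
    exact (goodS (R i) h1 h2 h3).mono (hSD i)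
  have h := many (B := Bn) (fun n y => CF.U_compact _ y) (fun n U hU => CF.U_sub_open _ hU) Bn_mono
    ENNReal.ofReal_ne_top k (fun i => (μ i : Measure (NonemptyCompacts (NonemptyCompacts ℂ)))) S hS hG
  filter_upwards [h] with 𝒞 h𝒞
  have e : S ∩ ⋂ i, Big Bn (𝒞 i) = {x | x ∈ S ∧ ∀ i, x ∈ big (𝒞 i)} := by
    ext x
    simp only [Big_eq, mem_inter_iff, mem_iInter]
    rfl
  rw [e, e548] at h𝒞
  exact h𝒞

theorem dim_DE (R : Rect) : dimH R.D = 2 ∧ IsSigmaCompact R.D := by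
  have hopen : IsOpen R.D := CF.isOpen_D R
  refine ⟨?_, ?_⟩
  · have hne : (interior R.D).Nonempty := by
      rw [hopen.interior_eq]
      refine ⟨⟨(R.B - R.A) / 2, R.H / 2⟩, ?_⟩
      have h1 := R.hA
      have h2 := R.hB
      have h3 := R.hH
      refine ⟨?_, ?_, ?_, ?_⟩
      · show -R.A < (R.B - R.A) / 2
        linarith
      · show (R.B - R.A) / 2 < R.B
        linarith
      · show 0 < R.H / 2
        linarith
      · show R.H / 2 < R.H
        linarith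
    rw [Real.dimH_of_nonempty_interior hne, Complex.finrank_real_complex]
    norm_num
  · rw [isSigmaCompact_iff_sigmaCompactSpace]
    have : LocallyCompactSpace R.D := hopen.locallyCompactSpace
    infer_instance

end V11324.KI
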