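import Pool.Agent.V11324.KI.Abs
import Pool.Agent.TH966.HD.Fin

/-!
Intersections of the traces of independent exploration paths in rectangles.
-/

set_option autoImplicit false
set_option maxHeartbeats 400000

namespace V11324.KI

open H984N MeasureTheory Filter Topology Set
open scoped ENNReal NNReal

/-- the trace -/
def trc (p : X) : Set ℂ := Set.range p.1

theorem trc_compact (p : X) : IsCompact (trc p) := isCompact_range p.1.continuous

theorem trc_usc : Usc trc := by
  intro U hU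
  have h : IsOpen {f : C(unitInterval, ℂ) | MapsTo f univ U} :=
    ContinuousMap.isOpen_setOf_mapsTo isCompact_univ hU
  have h2 := h.preimage (continuous_fst (X := C(unitInterval, ℂ)) (Y := ℝ))
  convert h2 using 1
  ext p
  constructor
  · intro hp s _
    exact hp ⟨s, rfl⟩
  · rintro hp _ ⟨s, rfl⟩
    exact hp (mem_univ s)

theorem good (R : H984N.Rect) {δ : ℕ → ℝ} (hδ : ∀ i, 0 < δ i) (hlim : Tendsto δ atTop (𝓝 0))
    {μ : ProbabilityMeasure H984N.X} (hμ : Tendsto (fun i => R.law (δ i)) atTop (𝓝 μ)) :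
    Good trc R.D (μ : Measure H984N.X) := by
  constructor
  · intro T hT
    have h3 := H443B.fixed_trace (H443B.toE R) hδ hlim (H443B.limit_trace R hδ hlim hμ)
      (H443B.isOpen_D R) hT
    rw [ProbabilityMeasure.toMeasure_map] at h3
    filter_upwards [ae_of_ae_map H443B.rgX_cont.measurable.aemeasurable h3] with p hp
    rw [inter_comm]
    exact hp
  · intro T hT hTc t ht h hcon
    have h5 := Pool.Agent.TH966.HD.dim_pos R hδ hlim hμ hTc hT ht h
    rw [ae_iff] at hcon
    refine absurd h5 (not_lt.2 ?_)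
    rw [← hcon]
    apply measure_mono
    intro p hp
    have hp' : ENNReal.ofReal t ≤ dimH (trc p ∩ T) := hp
    show ¬ dimH (T ∩ trc p) < ENNReal.ofReal t
    rw [inter_comm, not_lt]
    exact hp'

theorem k4 (k : ℕ) : ENNReal.ofReal ((k : ℝ) / 4) = (k : ℝ≥0∞) / 4 := by
  rw [ENNReal.ofReal_div_of_pos (by norm_num), ENNReal.ofReal_natCast]
  norm_num

theorem main (k : ℕ) (R : Fin k → Rect) (μ : Fin k → ProbabilityMeasure X)
    (hμ : ∀ i, ∃ δ : ℕ → ℝ, (∀ j, 0 < δ j) ∧ Tendsto δ atTop (𝓝 0) ∧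
      Tendsto (fun j => (R i).law (δ j)) atTop (𝓝 (μ i)))
    (S : Set ℂ) (hSD : ∀ i, S ⊆ (R i).D) (hS : IsSigmaCompact S) :
    essSup (fun p : Fin k → X => dimH (S ∩ ⋂ i, Set.range (p i).1))
      (Measure.pi fun i => (μ i : Measure X)) = dimH S - (k : ℝ≥0∞) / 4 ∧
    (dimH S < (k : ℝ≥0∞) / 4 → ∀ᵐ p ∂(Measure.pi fun i => (μ i : Measure X)),
      S ∩ ⋂ i, Set.range (p i).1 = ∅) := by
  have hG : ∀ i, Good trc S (μ i : Measure X) := by
    intro i
    obtain ⟨δ, h1, h2, h3⟩ := hμ i
    exact (good (R i) h1 h2 h3).mono (hSD i)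
  obtain ⟨Kn, hKc, hKS⟩ := hS
  have hsub : ∀ n, Kn n ⊆ S := fun n => by
    rw [← hKS]
    exact Set.subset_iUnion Kn n
  have hup : ∀ᵐ p ∂(Measure.pi fun i => (μ i : Measure X)), ∀ n,
      dimH (Kn n ∩ ⋂ i, trc (p i)) ≤ dimH (Kn n) - (k : ℝ≥0∞) / 4 ∧
      (dimH (Kn n) < (k : ℝ≥0∞) / 4 → Kn n ∩ ⋂ i, trc (p i) = ∅) :=
    ae_all_iff.2 fun n => upk trc_compact trc_usc k (fun i => (μ i : Measure X)) (Kn n) (hKc n)
      (fun i => (hG i).mono (hsub n))
  have hU : ∀ p : Fin k → X, S ∩ ⋂ i, trc (p i) = ⋃ n, (Kn n ∩ ⋂ i, trc (p i)) := by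
    intro p
    rw [← Set.iUnion_inter, hKS]
  refine ⟨?_, ?_⟩
  · apply le_antisymm
    · refine essSup_le_of_ae_le _ ?_
      filter_upwards [hup] with p hp
      show dimH (S ∩ ⋂ i, trc (p i)) ≤ _
      rw [hU p, dimH_iUnion]
      exact iSup_le fun n => (hp n).1.trans (tsub_le_tsub_right (dimH_mono (hsub n)) _)
    · by_contra hcon
      rw [not_le] at hcon
      obtain ⟨t, ht0, ht1, ht2⟩ := ENNReal.lt_iff_exists_real_btwn.mp hcon
      have htp : 0 < t := by
        by_contra h0
        have h5 : t = 0 := le_antisymm (not_lt.mp h0) ht0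
        rw [h5, ENNReal.ofReal_zero] at ht1
        exact absurd ht1 not_lt_zero
      have ht3 : ENNReal.ofReal (t + (k : ℝ) / 4) < dimH S := by
        rw [ENNReal.ofReal_add ht0 (by positivity), k4]
        exact lt_tsub_iff_right.mp ht2
      rw [← hKS, dimH_iUnion] at ht3
      obtain ⟨n, hn⟩ := lt_iSup_iff.mp ht3
      have h6 := ae_lt_of_essSup_lt ht1
      refine lok trc_compact k (fun i => (μ i : Measure X)) (Kn n) (hKc n)
        (fun i => (hG i).mono (hsub n)) t htp hn ?_
      filter_upwards [h6] with p hp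
      exact lt_of_le_of_lt (dimH_mono (Set.inter_subset_inter_left _ (hsub n))) hp
  · intro h
    filter_upwards [hup] with p hp
    show S ∩ ⋂ i, trc (p i) = ∅
    rw [hU p, Set.iUnion_eq_empty]
    intro n
    exact (hp n).2 (lt_of_le_of_lt (dimH_mono (hsub n)) h)

theorem dim_D (R : Rect) : dimH R.D = 2 ∧ IsSigmaCompact R.D := by
  have hopen : IsOpen R.D := H443B.isOpen_D R
  refine ⟨?_, ?_⟩
  · have hne : (interior R.D).Nonempty := by
      rw [hopen.interior_eq]
      refine ⟨⟨(R.B - R.A) / 2, R.H / 2⟩, ?_⟩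
      have h1 := R.hA
      have h2 := R.hB
      have h3 := R.hH
      refine ⟨?_, ?_, ?_, ?_⟩
      · show -R.A < (R.B - R.A) / 2
        linarith
      · show (R.B - R.A) / 2 < R.B
        linarith
      · show 0 < R.H / 2
        linarith
      · show R.H / 2 < R.H
        linarith
    rw [Real.dimH_of_nonempty_interior hne, Complex.finrank_real_complex]
    norm_num
  · rw [isSigmaCompact_iff_sigmaCompactSpace]
    have : LocallyCompactSpace R.D := hopen.locallyCompactSpace
    infer_instance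

end V11324.KI
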